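import Pool.Agent.Helper5.FV.Stmts

/-!
# Row DCE: the sequence decreases
-/

set_option autoImplicit false

open Finset Pool.Agent.Helper8.UN

namespace Pool.Agent.Helper5.FV

theorem dce_nat (m j a b : ℕ) (hj : j ≤ m) (h : a ≤ (m - j + 1) * b) :
    (m + 1).descFactorial j * a ≤ (m + 1) * (m.descFactorial j * b) := by
  have h1 : (m + 1).descFactorial (j + 1) = (m + 1 - j) * (m + 1).descFactorial j :=
    Nat.descFactorial_succ _ _
  have h2 : (m + 1).descFactorial (j + 1) = (m + 1) * m.descFactorial j :=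
    Nat.succ_descFactorial_succ _ _
  have h3 : m - j + 1 = m + 1 - j := by omega
  calc (m + 1).descFactorial j * a ≤ (m + 1).descFactorial j * ((m - j + 1) * b) :=
        Nat.mul_le_mul_left _ h
    _ = ((m + 1 - j) * (m + 1).descFactorial j) * b := by rw [h3]; ring
    _ = (m + 1) * (m.descFactorial j * b) := by rw [← h1, h2]; ring

theorem st_DCE (h1 : ST_DEC) (h2 : ST_QQC) (h3 : ST_CDE) (h4 : ST_LMW) (h5 : ST_PSW) :
    ST_DCE := by
  obtain ⟨n1, hC⟩ := h3
  obtain ⟨n2, hL⟩ := h4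
  obtain ⟨n3, hP⟩ := h5
  refine ⟨max (max n1 n2) (max n3 3), ?_⟩
  intro n hn D0 r m E W0 hR hm
  have hn1 : n1 ≤ n := le_trans (le_trans (le_max_left _ _) (le_max_left _ _)) hn
  have hn2 : n2 ≤ n := le_trans (le_trans (le_max_right _ _) (le_max_left _ _)) hn
  have hn3 : n3 ≤ n := le_trans (le_trans (le_max_left _ _) (le_max_right _ _)) hn
  have hn4 : 3 ≤ n := le_trans (le_trans (le_max_right _ _) (le_max_right _ _)) hn
  have hnR : (3:ℝ) ≤ n := by exact_mod_cast hn4
  have hlog : 0 < Real.log n := Real.log_pos (by linarith)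
  have hq : 0 ≤ (n : ℝ) / Real.log n := by positivity
  have hsq : Real.sqrt n ≤ n := Real.sqrt_le_iff.2 ⟨by positivity, by nlinarith⟩
  have hsq2 : Real.sqrt n / Real.log n ≤ (n : ℝ) / Real.log n :=
    div_le_div_of_nonneg_right hsq hlog.le
  have hmr : 68 / 100 * ((n : ℝ) / Real.log n) ≤ m := by
    rcases hm with hA | ⟨hA, _, _⟩
    · linarith
    · exact hA
  have hW0 : W0.card ≤ m := by
    have : (W0.card : ℝ) ≤ m := by
      have := hR.w0
      linarith
    exact_mod_cast this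
  have key : ∀ Q ∈ QQ E W0, AA E (univ \ un Q) (m - Q.card + 1) ≤
      (m - Q.card + 1) * AA E (univ \ un Q) (m - Q.card) := by
    intro Q hQ
    rcases hm with hA | ⟨hA, hB, hD⟩
    · exact hC n hn1 D0 r m E W0 Q hR hQ (Or.inl hA)
    · by_cases hU : 106 / 100 * (PP E (univ \ W0) (m + 1) : ℝ) ≤ (m + 1) * PP E (univ \ W0) m
      · exact hC n hn1 D0 r m E W0 Q hR hQ (Or.inr ⟨hA, hB, hU⟩)
      · exfalso
        rw [not_le] at hU
        have hl := hL n hn2 D0 r m E W0 hR (by linarith) hB hU.le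
        have hp : 0 < PP E univ (m + 1) :=
          hP n hn3 D0 r (m + 1) E W0 hR (by push_cast; linarith)
        have hp' : (0:ℝ) < PP E univ (m + 1) := by exact_mod_cast hp
        linarith
  have e1 := (h1 n (m + 1) E W0 hR.two).2
  have e2 := (h1 n m E W0 hR.two).2
  rw [e1, e2, Finset.mul_sum]
  refine Finset.sum_le_sum fun Q hQ => ?_
  have hj : Q.card ≤ m := le_trans (h2 n E W0 Q hQ).1 hW0
  have e3 : m + 1 - Q.card = m - Q.card + 1 := by omega
  rw [e3]
  exact dce_nat m Q.card _ _ hj (key Q hQ)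

end Pool.Agent.Helper5.FV
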