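import Pool.Agent.Helper43.FV.Spec

/-!
# GENREG: generic members of a family of automorphisms are automorphisms of the model
-/

namespace Pool.Agent.Helper43.FV

open Pool.Agent.Helper43.RS
open scoped ComplexConjugate TensorProduct
open MvPolynomial

section GENREG_fam

variable {S K : Type} [CommRing S] [Algebra ℂ S] [Field K] [Algebra ℂ K]

theorem GENREG_fam_of {ι : Type} [Fintype ι] {P : (S →ₐ[ℂ] ℂ) → K} (s : ι → S) (k : ι → K)
    (h : ∀ z, P z = ∑ i, z (s i) • k i) : Fam P := by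
  refine ⟨Fintype.card ι, s ∘ (Fintype.equivFin ι).symm, k ∘ (Fintype.equivFin ι).symm, ?_⟩
  intro z
  rw [h z]
  exact (Equiv.sum_comp (Fintype.equivFin ι).symm (fun i => z (s i) • k i)).symm

theorem GENREG_fam_const (k : K) : Fam (S := S) (fun _ => k) :=
  GENREG_fam_of (ι := Unit) (fun _ => 1) (fun _ => k) (by intro z; simp)

theorem GENREG_fam_coef (s : S) : Fam (K := K) (fun z : S →ₐ[ℂ] ℂ => algebraMap ℂ K (z s)) :=
  GENREG_fam_of (ι := Unit) (fun _ => s) (fun _ => 1)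
    (by intro z; simp [Algebra.smul_def])

theorem GENREG_fam_add {P Q : (S →ₐ[ℂ] ℂ) → K} (hP : Fam P) (hQ : Fam Q) :
    Fam (fun z => P z + Q z) := by
  obtain ⟨n, s, k, h⟩ := hP
  obtain ⟨m, s', k', h'⟩ := hQ
  refine GENREG_fam_of (ι := Fin n ⊕ Fin m) (Sum.elim s s') (Sum.elim k k') ?_
  intro z
  rw [h, h', Fintype.sum_sum_type]
  rfl

theorem GENREG_fam_mul {P Q : (S →ₐ[ℂ] ℂ) → K} (hP : Fam P) (hQ : Fam Q) :
    Fam (fun z => P z * Q z) := by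
  obtain ⟨n, s, k, h⟩ := hP
  obtain ⟨m, s', k', h'⟩ := hQ
  refine GENREG_fam_of (ι := Fin n × Fin m) (fun i => s i.1 * s' i.2)
    (fun i => k i.1 * k' i.2) ?_
  intro z
  rw [h, h', Finset.sum_mul_sum, Fintype.sum_prod_type]
  refine Finset.sum_congr rfl fun i _ => Finset.sum_congr rfl fun j _ => ?_
  rw [map_mul, smul_mul_smul_comm]

theorem GENREG_fam_pow {P : (S →ₐ[ℂ] ℂ) → K} (hP : Fam P) (n : ℕ) :
    Fam (fun z => P z ^ n) := by
  induction n with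
  | zero => simpa using GENREG_fam_const (S := S) (1 : K)
  | succ n ih => simpa [pow_succ] using GENREG_fam_mul ih hP

theorem GENREG_fam_neg {P : (S →ₐ[ℂ] ℂ) → K} (hP : Fam P) : Fam (fun z => - P z) := by
  simpa using GENREG_fam_mul (GENREG_fam_const (S := S) (-1 : K)) hP

theorem GENREG_fam_prod {ι : Type} (t : Finset ι) {P : ι → (S →ₐ[ℂ] ℂ) → K}
    (hP : ∀ i, Fam (P i)) : Fam (fun z => ∏ i ∈ t, P i z) := by
  classical
  induction t using Finset.induction_on with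
  | empty => simpa using GENREG_fam_const (S := S) (1 : K)
  | insert a t ha ih =>
    have := GENREG_fam_mul (hP a) ih
    simpa [Finset.prod_insert ha] using this

theorem GENREG_fam_map {P : (S →ₐ[ℂ] ℂ) → K} (hP : Fam P) (b : K ≃ₐ[ℂ] K) :
    Fam (fun z => b (P z)) := by
  obtain ⟨n, s, k, h⟩ := hP
  refine ⟨n, s, fun i => b (k i), ?_⟩
  intro z
  show b (P z) = _
  rw [h z, map_sum]
  exact Finset.sum_congr rfl fun i _ => map_smul b _ _

/-- identity principle -/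
theorem GENREG_dens {P : (S →ₐ[ℂ] ℂ) → K} (hP : Fam P) {Γ : Set (S →ₐ[ℂ] ℂ)}
    (hΓ : DensePts Γ) (h0 : ∀ γ ∈ Γ, P γ = 0) (z : S →ₐ[ℂ] ℂ) : P z = 0 := by
  obtain ⟨n, s, k, h⟩ := hP
  rw [← Module.forall_dual_apply_eq_zero_iff ℂ]
  intro l
  have key : ∀ w : S →ₐ[ℂ] ℂ, l (P w) = w (∑ i, l (k i) • s i) := by
    intro w
    rw [h w, map_sum, map_sum]
    refine Finset.sum_congr rfl fun i _ => ?_
    rw [map_smul, map_smul, smul_eq_mul, smul_eq_mul, mul_comm]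
  rw [key]
  have : (∑ i, l (k i) • s i) = 0 := by
    apply hΓ
    intro γ hγ
    rw [← key, h0 γ hγ, map_zero]
  rw [this, map_zero]

/-- nonvanishing is open -/
theorem GENREG_open {P : (S →ₐ[ℂ] ℂ) → K} (hP : Fam P) (z₀ : S →ₐ[ℂ] ℂ) (h0 : P z₀ ≠ 0) :
    ∃ h : S, h ≠ 0 ∧ ∀ z : S →ₐ[ℂ] ℂ, z h ≠ 0 → P z ≠ 0 := by
  obtain ⟨n, s, k, h⟩ := hP
  have h1 : ¬ ∀ l : Module.Dual ℂ K, l (P z₀) = 0 := by
    rw [Module.forall_dual_apply_eq_zero_iff]
    exact h0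
  push Not at h1
  obtain ⟨l, hl⟩ := h1
  have key : ∀ w : S →ₐ[ℂ] ℂ, l (P w) = w (∑ i, l (k i) • s i) := by
    intro w
    rw [h w, map_sum, map_sum]
    refine Finset.sum_congr rfl fun i _ => ?_
    rw [map_smul, map_smul, smul_eq_mul, smul_eq_mul, mul_comm]
  refine ⟨∑ i, l (k i) • s i, ?_, ?_⟩
  · intro h2
    apply hl
    rw [key, h2, map_zero]
  · intro z hz h2
    apply hz
    rw [← key, h2, map_zero]

/-- rational families with denominator a power of `E` -/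
def GENREG_RF (E : (S →ₐ[ℂ] ℂ) → K) (Q : (S →ₐ[ℂ] ℂ) → K) : Prop :=
  ∃ (n : ℕ) (M : (S →ₐ[ℂ] ℂ) → K), Fam M ∧ ∀ z, E z ≠ 0 → E z ^ n * Q z = M z

variable {E : (S →ₐ[ℂ] ℂ) → K}

theorem GENREG_rf_of_fam {Q : (S →ₐ[ℂ] ℂ) → K} (hQ : Fam Q) : GENREG_RF E Q :=
  ⟨0, Q, hQ, by intro z _; simp⟩

theorem GENREG_rf_add (hE : Fam E) {P Q : (S →ₐ[ℂ] ℂ) → K} (hP : GENREG_RF E P)
    (hQ : GENREG_RF E Q) : GENREG_RF E (fun z => P z + Q z) := by
  obtain ⟨n, M, hM, h⟩ := hP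
  obtain ⟨m, M', hM', h'⟩ := hQ
  refine ⟨n + m, fun z => E z ^ m * M z + E z ^ n * M' z,
    GENREG_fam_add (GENREG_fam_mul (GENREG_fam_pow hE m) hM)
      (GENREG_fam_mul (GENREG_fam_pow hE n) hM'), ?_⟩
  intro z hz
  show _ = E z ^ m * M z + E z ^ n * M' z
  rw [← h z hz, ← h' z hz]
  ring

theorem GENREG_rf_mul {P Q : (S →ₐ[ℂ] ℂ) → K} (hP : GENREG_RF E P)
    (hQ : GENREG_RF E Q) : GENREG_RF E (fun z => P z * Q z) := by
  obtain ⟨n, M, hM, h⟩ := hP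
  obtain ⟨m, M', hM', h'⟩ := hQ
  refine ⟨n + m, fun z => M z * M' z, GENREG_fam_mul hM hM', ?_⟩
  intro z hz
  show _ = M z * M' z
  rw [← h z hz, ← h' z hz]
  ring

theorem GENREG_rf_neg {P : (S →ₐ[ℂ] ℂ) → K} (hP : GENREG_RF E P) :
    GENREG_RF E (fun z => - P z) := by
  obtain ⟨n, M, hM, h⟩ := hP
  refine ⟨n, fun z => - M z, GENREG_fam_neg hM, ?_⟩
  intro z hz
  show E z ^ n * - P z = - M z
  rw [← h z hz]
  ring

/-- evaluation of polynomials with coefficients in `S` -/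
theorem GENREG_rf_poly (hE : Fam E) {r : ℕ} {g : Fin r → (S →ₐ[ℂ] ℂ) → K}
    (hg : ∀ j, GENREG_RF E (g j)) (P : MvPolynomial (Fin r) S) :
    GENREG_RF E (fun z => aeval (fun j => g j z) (MvPolynomial.map (z : S →+* ℂ) P)) := by
  induction P using MvPolynomial.induction_on with
  | C s =>
    have := GENREG_rf_of_fam (E := E) (GENREG_fam_coef (K := K) s)
    simpa using this
  | add p q hp hq =>
    have := GENREG_rf_add hE hp hq
    simpa using this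
  | mul_X p j hp =>
    have := GENREG_rf_mul hp (hg j)
    simpa using this

theorem GENREG_rf_polyC (hE : Fam E) {r : ℕ} {g : Fin r → (S →ₐ[ℂ] ℂ) → K}
    (hg : ∀ j, GENREG_RF E (g j)) (P : MvPolynomial (Fin r) ℂ) :
    GENREG_RF E (fun z => aeval (fun j => g j z) P) := by
  induction P using MvPolynomial.induction_on with
  | C s =>
    have := GENREG_rf_of_fam (E := E) (GENREG_fam_const (S := S) (algebraMap ℂ K s))
    simpa using this
  | add p q hp hq =>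
    have := GENREG_rf_add hE hp hq
    simpa using this
  | mul_X p j hp =>
    have := GENREG_rf_mul hp (hg j)
    simpa using this

theorem GENREG_rf_dens {Q : (S →ₐ[ℂ] ℂ) → K} (hQ : GENREG_RF E Q)
    {Γ : Set (S →ₐ[ℂ] ℂ)} (hΓ : DensePts Γ) (hEΓ : ∀ γ ∈ Γ, E γ ≠ 0)
    (h0 : ∀ γ ∈ Γ, Q γ = 0) (z : S →ₐ[ℂ] ℂ) (hz : E z ≠ 0) : Q z = 0 := by
  obtain ⟨n, M, hM, h⟩ := hQ
  have h1 : M z = 0 := GENREG_dens hM hΓ (by
    intro γ hγ
    rw [← h γ (hEΓ γ hγ), h0 γ hγ, mul_zero]) z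
  rw [← h z hz] at h1
  exact (mul_eq_zero.mp h1).resolve_left (pow_ne_zero n hz)

theorem GENREG_rf_open {Q : (S →ₐ[ℂ] ℂ) → K} (hQ : GENREG_RF E Q)
    (z₀ : S →ₐ[ℂ] ℂ) (hE0 : E z₀ ≠ 0) (h0 : Q z₀ ≠ 0) :
    ∃ h : S, h ≠ 0 ∧ ∀ z : S →ₐ[ℂ] ℂ, z h ≠ 0 → E z ≠ 0 → Q z ≠ 0 := by
  obtain ⟨n, M, hM, h⟩ := hQ
  obtain ⟨s, hs, h2⟩ := GENREG_open hM z₀ (by
    rw [← h z₀ hE0]
    exact mul_ne_zero (pow_ne_zero n hE0) h0)
  refine ⟨s, hs, ?_⟩
  intro z hz hEz h3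
  apply h2 z hz
  rw [← h z hEz, h3, mul_zero]

end GENREG_fam

section GENREG_loc

variable {K : Type} [Field K] [Algebra ℂ K]

/-- evaluation on a local ring -/
theorem GENREG_ev (R : Subalgebra ℂ K) (φ : R →ₐ[ℂ] ℂ) :
    ∃ ev : locAt R φ →ₐ[ℂ] ℂ, ∀ x : locAt R φ, ∀ p q : R, (x : K) * q = p →
      ev x * φ q = φ p := by
  classical
  have key : ∀ (x : K) (p q p' q' : R), φ q ≠ 0 → φ q' ≠ 0 → x * q = p → x * q' = p' →
      φ p / φ q = φ p' / φ q' := by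
    intro x p q p' q' hq hq' h h'
    have h1 : p * q' = p' * q := by
      apply Subtype.ext
      push_cast
      rw [← h, ← h']
      ring
    rw [div_eq_div_iff hq hq', ← map_mul, ← map_mul, h1]
  choose P Q hQ hPQ using fun x : locAt R φ => x.2
  have hev : ∀ (x : locAt R φ) (p q : R), φ q ≠ 0 → (x : K) * q = p →
      φ (P x) / φ (Q x) = φ p / φ q := fun x p q hq h => key x _ _ _ _ (hQ x) hq (hPQ x) h
  refine ⟨{ toFun := fun x => φ (P x) / φ (Q x)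
            map_one' := ?_
            map_mul' := ?_
            map_zero' := ?_
            map_add' := ?_
            commutes' := ?_ }, ?_⟩
  · rw [hev 1 1 1 (by simp) (by simp)]
    simp
  · intro x y
    rw [hev (x * y) (P x * P y) (Q x * Q y)
      (by rw [map_mul]; exact mul_ne_zero (hQ x) (hQ y))
      (by push_cast; rw [← hPQ x, ← hPQ y]; ring), map_mul, map_mul, mul_div_mul_comm]
  · show φ (P 0) / φ (Q 0) = 0
    rw [hev 0 0 1 (by simp) (by simp)]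
    simp
  · intro x y
    show φ (P (x + y)) / φ (Q (x + y)) = φ (P x) / φ (Q x) + φ (P y) / φ (Q y)
    rw [hev (x + y) (P x * Q y + P y * Q x) (Q x * Q y)
      (by rw [map_mul]; exact mul_ne_zero (hQ x) (hQ y))
      (by push_cast; rw [← hPQ x, ← hPQ y]; ring), map_mul, map_add, map_mul, map_mul,
      div_add_div _ _ (hQ x) (hQ y)]
    ring
  · intro c
    show φ (P (algebraMap ℂ (locAt R φ) c)) / φ (Q (algebraMap ℂ (locAt R φ) c)) = c
    rw [hev (algebraMap ℂ (locAt R φ) c) (algebraMap ℂ R c) 1 (by simp) (by simp)]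
    simp
  · intro x p q h
    show φ (P x) / φ (Q x) * φ q = φ p
    by_cases hq : φ q = 0
    · rw [hq, mul_zero]
      have h1 : p * Q x = P x * q := by
        apply Subtype.ext
        push_cast
        rw [← h, ← hPQ x]
        ring
      have h2 : φ p * φ (Q x) = 0 := by rw [← map_mul, h1, map_mul, hq, mul_zero]
      exact ((mul_eq_zero.mp h2).resolve_right (hQ x)).symm
    · rw [hev x p q hq h]
      field_simp

/-- an automorphism mapping a chart into a local ring -/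
theorem GENREG_dom {X : Set (Subalgebra ℂ K)} {n : ℕ} {R : Fin n → Subalgebra ℂ K}
    (hX : ∀ O, O ∈ X ↔ ∃ i, ∃ φ : R i →ₐ[ℂ] ℂ, O = locAt (R i) φ) {O : Subalgebra ℂ K}
    (hO : O ∈ X) (b : K →ₐ[ℂ] K) (i : Fin n) (h : ∀ x ∈ R i, b x ∈ O) :
    ∃ Q ∈ X, ∀ x ∈ Q, b x ∈ O := by
  obtain ⟨j, φ, rfl⟩ := (hX O).mp hO
  obtain ⟨ev, hev⟩ := GENREG_ev (R j) φ
  let ψ : R i →ₐ[ℂ] ℂ := ev.comp ((b.comp (R i).val).codRestrict (locAt (R j) φ)
    (fun x => h x x.2))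
  refine ⟨locAt (R i) ψ, (hX _).mpr ⟨i, ψ, rfl⟩, ?_⟩
  rintro x ⟨p, q, hq, hx⟩
  obtain ⟨p1, q1, h1, h2⟩ := h q q.2
  obtain ⟨p2, q2, h3, h4⟩ := h p p.2
  have hψ : ψ q * φ q1 = φ p1 := hev ⟨b q, h q q.2⟩ p1 q1 h2
  have hp1 : φ p1 ≠ 0 := by
    rw [← hψ]
    exact mul_ne_zero hq h1
  refine ⟨p2 * q1, p1 * q2, by rw [map_mul]; exact mul_ne_zero hp1 h3, ?_⟩
  push_cast
  rw [← h2, ← h4, ← hx, map_mul]
  ring

/-- the criterion for automorphisms to preserve a model -/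
theorem GENREG_pres {X : Set (Subalgebra ℂ K)} (hs : ∀ O ∈ X, ∀ O' ∈ X, O ≤ O' → O = O')
    {n : ℕ} {R : Fin n → Subalgebra ℂ K}
    (hX : ∀ O, O ∈ X ↔ ∃ i, ∃ φ : R i →ₐ[ℂ] ℂ, O = locAt (R i) φ)
    (b : K ≃ₐ[ℂ] K) (h1 : ∀ O ∈ X, ∃ i, ∀ x ∈ R i, b x ∈ O)
    (h2 : ∀ O ∈ X, ∃ i, ∀ x ∈ R i, b.symm x ∈ O) : Pres X b := by
  have main : ∀ (b : K ≃ₐ[ℂ] K), (∀ O ∈ X, ∃ i, ∀ x ∈ R i, b x ∈ O) →
      (∀ O ∈ X, ∃ i, ∀ x ∈ R i, b.symm x ∈ O) →
      ∀ O ∈ X, ∃ Q ∈ X, ∀ f, f ∈ Q ↔ b f ∈ O := by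
    intro b h1 h2 O hO
    obtain ⟨i, hi⟩ := h1 O hO
    obtain ⟨Q, hQ, hQO⟩ := GENREG_dom hX hO (b : K →ₐ[ℂ] K) i hi
    obtain ⟨j, hj⟩ := h2 Q hQ
    obtain ⟨P, hP, hPQ⟩ := GENREG_dom hX hQ (b.symm : K →ₐ[ℂ] K) j hj
    have hPO : P ≤ O := by
      intro x hx
      have := hQO _ (hPQ x hx)
      simpa using this
    have hPO' := hs P hP O hO hPO
    subst hPO'
    refine ⟨Q, hQ, fun f => ⟨fun hf => hQO f hf, fun hf => ?_⟩⟩
    have := hPQ _ hf
    simpa using this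
  refine ⟨?_, main b h1 h2⟩
  intro O hO
  obtain ⟨Q, hQ, h⟩ := main b.symm h2 (by simpa using h1) O hO
  refine ⟨Q, hQ, fun f => ?_⟩
  rw [h (b f)]
  simp

/-- a field generated by `f`: all elements are fractions -/
theorem GENREG_frac {r : ℕ} {f : Fin r → K} (hf : FGen (Set.range f)) (x : K) :
    ∃ p q : MvPolynomial (Fin r) ℂ, aeval f q ≠ 0 ∧ x = aeval f p / aeval f q := by
  have hx : x ∈ IntermediateField.adjoin ℂ (Set.range f) := by
    rw [show IntermediateField.adjoin ℂ (Set.range f) = ⊤ from hf]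
    exact IntermediateField.mem_top
  induction hx using IntermediateField.adjoin_induction with
  | mem x hx =>
    obtain ⟨j, rfl⟩ := hx
    exact ⟨X j, 1, by simp, by simp⟩
  | algebraMap c => exact ⟨C c, 1, by simp, by simp⟩
  | add x y _ _ hx hy =>
    obtain ⟨p, q, hq, hx⟩ := hx
    obtain ⟨p', q', hq', hy⟩ := hy
    refine ⟨p * q' + p' * q, q * q', by rw [map_mul]; exact mul_ne_zero hq hq', ?_⟩
    rw [hx, hy, div_add_div _ _ hq hq']
    simp only [map_mul, map_add]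
    ring
  | inv x _ hx =>
    obtain ⟨p, q, hq, hx⟩ := hx
    by_cases hp : aeval f p = 0
    · refine ⟨0, 1, by simp, ?_⟩
      rw [hx, hp]
      simp
    · exact ⟨q, p, hp, by rw [hx, inv_div]⟩
  | mul x y _ _ hx hy =>
    obtain ⟨p, q, hq, hx⟩ := hx
    obtain ⟨p', q', hq', hy⟩ := hy
    refine ⟨p * p', q * q', by rw [map_mul]; exact mul_ne_zero hq hq', ?_⟩
    rw [hx, hy, map_mul, map_mul, div_mul_div_comm]

/-- existence of homomorphisms of the field -/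
theorem GENREG_hom {r : ℕ} {f g : Fin r → K} (hf : FGen (Set.range f))
    (h : ∀ p : MvPolynomial (Fin r) ℂ, aeval f p = 0 ↔ aeval g p = 0) :
    ∃ β : K →ₐ[ℂ] K, ∀ j, β (f j) = g j := by
  classical
  choose P Q hQ hPQ using GENREG_frac hf
  have hQ' : ∀ x, aeval g (Q x) ≠ 0 := fun x h1 => hQ x ((h _).mpr h1)
  have key : ∀ (x : K) (p q : MvPolynomial (Fin r) ℂ), aeval f q ≠ 0 →
      x = aeval f p / aeval f q → aeval g (P x) / aeval g (Q x) = aeval g p / aeval g q := by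
    intro x p q hq hx
    have hq' : aeval g q ≠ 0 := fun h1 => hq ((h _).mpr h1)
    have h1 : aeval f (P x * q - p * Q x) = 0 := by
      have h2 := hPQ x
      rw [hx, div_eq_div_iff hq (hQ _)] at h2
      rw [map_sub, map_mul, map_mul, hx, ← h2, sub_self]
    have h2 := (h _).mp h1
    rw [map_sub, map_mul, map_mul, sub_eq_zero] at h2
    rw [div_eq_div_iff (hQ' x) hq', h2]
  refine ⟨{ toFun := fun x => aeval g (P x) / aeval g (Q x)
            map_one' := ?_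
            map_mul' := ?_
            map_zero' := ?_
            map_add' := ?_
            commutes' := ?_ }, ?_⟩
  · rw [key 1 1 1 (by simp) (by simp)]
    simp
  · intro x y
    rw [key (x * y) (P x * P y) (Q x * Q y)
      (by rw [map_mul]; exact mul_ne_zero (hQ x) (hQ y))
      (by rw [map_mul, map_mul, mul_div_mul_comm, ← hPQ, ← hPQ]), map_mul, map_mul,
      mul_div_mul_comm]
  · show aeval g (P 0) / aeval g (Q 0) = 0
    rw [key 0 0 1 (by simp) (by simp)]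
    simp
  · intro x y
    show aeval g (P (x + y)) / aeval g (Q (x + y)) =
      aeval g (P x) / aeval g (Q x) + aeval g (P y) / aeval g (Q y)
    rw [key (x + y) (P x * Q y + Q x * P y) (Q x * Q y)
      (by rw [map_mul]; exact mul_ne_zero (hQ x) (hQ y))
      (by
        rw [map_mul, map_add, map_mul, map_mul, ← div_add_div _ _ (hQ x) (hQ y), ← hPQ, ← hPQ]),
      map_mul, map_add, map_mul, map_mul, ← div_add_div _ _ (hQ' x) (hQ' y)]
  · intro c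
    show aeval g (P (algebraMap ℂ K c)) / aeval g (Q (algebraMap ℂ K c)) = algebraMap ℂ K c
    rw [key (algebraMap ℂ K c) (C c) 1 (by simp) (by simp)]
    simp
  · intro j
    show aeval g (P (f j)) / aeval g (Q (f j)) = g j
    rw [key (f j) (X j) 1 (by simp) (by simp)]
    simp

/-- homogenization -/
theorem GENREG_homog {r : ℕ} (P Q : Fin r → MvPolynomial (Fin r) ℂ)
    (p : MvPolynomial (Fin r) ℂ) :
    ∃ (n : ℕ) (H : MvPolynomial (Fin r) ℂ), ∀ x : Fin r → K, (∀ j, aeval x (Q j) ≠ 0) →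
      aeval x H = (∏ j, aeval x (Q j)) ^ n * aeval (fun j => aeval x (P j) / aeval x (Q j)) p := by
  induction p using MvPolynomial.induction_on with
  | C c => exact ⟨0, C c, fun x _ => by simp⟩
  | add p q hp hq =>
    obtain ⟨n, H, h⟩ := hp
    obtain ⟨m, H', h'⟩ := hq
    refine ⟨n + m, (∏ j, Q j) ^ m * H + (∏ j, Q j) ^ n * H', fun x hx => ?_⟩
    rw [map_add, map_mul, map_mul, map_pow, map_pow, map_prod, h x hx, h' x hx, map_add]
    ring
  | mul_X p j hp =>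
    obtain ⟨n, H, h⟩ := hp
    refine ⟨n + 1, H * (P j * ∏ i ∈ Finset.univ.erase j, Q i), fun x hx => ?_⟩
    rw [map_mul, map_mul, map_prod, h x hx, map_mul, aeval_X, pow_succ,
      ← Finset.mul_prod_erase Finset.univ (fun i => aeval x (Q i)) (Finset.mem_univ j)]
    have := hx j
    field_simp

end GENREG_loc

section GENREG_main

variable {S K : Type} [CommRing S] [Algebra ℂ S] [Field K] [Algebra ℂ K]

/-- homomorphisms agreeing on generators are equal -/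
theorem GENREG_ext {r : ℕ} {f : Fin r → K} (hf : FGen (Set.range f)) (a b : K →ₐ[ℂ] K)
    (h : ∀ j, a (f j) = b (f j)) (x : K) : a x = b x := by
  obtain ⟨p, q, hq, rfl⟩ := GENREG_frac hf x
  have key : ∀ p : MvPolynomial (Fin r) ℂ, a (aeval f p) = b (aeval f p) := by
    intro p
    have h1 : ∀ c : K →ₐ[ℂ] K, c (aeval f p) = aeval (fun j => c (f j)) p := by
      intro c
      exact MvPolynomial.comp_aeval_apply _ c p
    rw [h1, h1]
    simp only [h]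
  rw [map_div₀, map_div₀, key, key]

theorem GENREG_img {r : ℕ} {f g : Fin r → K} (a : K →ₐ[ℂ] K) (h : ∀ j, a (f j) = g j)
    (p : MvPolynomial (Fin r) ℂ) : a (aeval f p) = aeval g p := by
  have h1 : (fun j => a (f j)) = g := funext h
  rw [← h1]
  exact MvPolynomial.comp_aeval_apply _ a p

/-- families as polynomials in the generators -/
theorem GENREG_coeff {r : ℕ} {f : Fin r → K} (hf : FGen (Set.range f))
    {M : (S →ₐ[ℂ] ℂ) → K} (hM : Fam M) :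
    ∃ (P : MvPolynomial (Fin r) S) (q : MvPolynomial (Fin r) ℂ), aeval f q ≠ 0 ∧
      ∀ z : S →ₐ[ℂ] ℂ, aeval f q * M z = aeval f (MvPolynomial.map (z : S →+* ℂ) P) := by
  obtain ⟨n, s, k, h⟩ := hM
  have main : ∀ t : Finset (Fin n), ∃ (P : MvPolynomial (Fin r) S)
      (q : MvPolynomial (Fin r) ℂ), aeval f q ≠ 0 ∧
      ∀ z : S →ₐ[ℂ] ℂ, aeval f q * (∑ i ∈ t, z (s i) • k i) =
        aeval f (MvPolynomial.map (z : S →+* ℂ) P) := by
    classical
    intro t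
    induction t using Finset.induction_on with
    | empty => exact ⟨0, 1, by simp, by simp⟩
    | insert a t ha ih =>
      obtain ⟨P, q, hq, h1⟩ := ih
      obtain ⟨u, v, hv, h2⟩ := GENREG_frac hf (k a)
      have hmap : ∀ (w : MvPolynomial (Fin r) ℂ) (z : S →ₐ[ℂ] ℂ),
          MvPolynomial.map (z : S →+* ℂ) (MvPolynomial.map (algebraMap ℂ S) w) = w := by
        intro w z
        rw [MvPolynomial.map_map]
        have : (z : S →+* ℂ).comp (algebraMap ℂ S) = RingHom.id ℂ := by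
          ext c
          simp
        rw [this, MvPolynomial.map_id]
      refine ⟨P * MvPolynomial.map (algebraMap ℂ S) v +
        C (s a) * MvPolynomial.map (algebraMap ℂ S) (u * q), q * v,
        by rw [map_mul]; exact mul_ne_zero hq hv, ?_⟩
      intro z
      rw [Finset.sum_insert ha, map_add, map_mul (MvPolynomial.map (z : S →+* ℂ)),
        map_mul (MvPolynomial.map (z : S →+* ℂ)), hmap, hmap, map_C, map_add, map_mul,
        map_mul, map_mul, map_mul, ← h1, h2, aeval_C, Algebra.smul_def]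
      simp only [RingHom.coe_coe]
      field_simp
      ring
  obtain ⟨P, q, hq, h1⟩ := main Finset.univ
  exact ⟨P, q, hq, fun z => by rw [h z]; exact h1 z⟩

variable {E : (S →ₐ[ℂ] ℂ) → K}

theorem GENREG_rel (hE : Fam E) {Γ : Set (S →ₐ[ℂ] ℂ)} (hΓ : DensePts Γ)
    (hEΓ : ∀ γ ∈ Γ, E γ ≠ 0) {r : ℕ} {f : Fin r → K} {g : Fin r → (S →ₐ[ℂ] ℂ) → K}
    (hg : ∀ j, GENREG_RF E (g j))
    (ha : ∀ γ ∈ Γ, ∃ a : K ≃ₐ[ℂ] K, ∀ j, a (f j) = g j γ)
    (z : S →ₐ[ℂ] ℂ) (hz : E z ≠ 0) (p : MvPolynomial (Fin r) ℂ) (hp : aeval f p = 0) :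
    aeval (fun j => g j z) p = 0 := by
  refine GENREG_rf_dens (GENREG_rf_polyC hE hg p) hΓ hEΓ ?_ z hz
  intro γ hγ
  obtain ⟨a, ha⟩ := ha γ hγ
  show aeval (fun j => g j γ) p = 0
  rw [← GENREG_img (a : K →ₐ[ℂ] K) ha p, hp, map_zero]

theorem GENREG_back [IsDomain S] (hE : Fam E) {Γ : Set (S →ₐ[ℂ] ℂ)} (hΓ : DensePts Γ)
    (hEΓ : ∀ γ ∈ Γ, E γ ≠ 0) {r : ℕ} {f : Fin r → K} (hf : FGen (Set.range f))
    {g g' N' D' : Fin r → (S →ₐ[ℂ] ℂ) → K}
    (hg : ∀ j, GENREG_RF E (g j)) (hN' : ∀ j, Fam (N' j)) (hD' : ∀ j, Fam (D' j))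
    (hND : ∀ j z, E z ≠ 0 → D' j z ≠ 0 ∧ D' j z * g' j z = N' j z)
    (ha : ∀ γ ∈ Γ, ∃ a : K ≃ₐ[ℂ] K, (∀ j, a (f j) = g j γ) ∧ ∀ j, a (g' j γ) = f j) :
    ∃ h : S, h ≠ 0 ∧ ∀ z : S →ₐ[ℂ] ℂ, z h ≠ 0 → E z ≠ 0 →
      (∀ p : MvPolynomial (Fin r) ℂ, aeval (fun j => g' j z) p = 0 → aeval f p = 0) ∧
      ∀ β : K →ₐ[ℂ] K, (∀ j, β (f j) = g j z) → ∀ j, β (g' j z) = f j := by
  classical
  have hrel := GENREG_rel hE hΓ hEΓ hg (fun γ hγ => by
    obtain ⟨a, h, _⟩ := ha γ hγ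
    exact ⟨a, h⟩)
  have hne : ∃ γ₀, γ₀ ∈ Γ := by
    by_contra h
    push Not at h
    exact one_ne_zero (hΓ (1 : S) fun γ hγ => absurd hγ (h γ))
  obtain ⟨γ₀, hγ₀⟩ := hne
  have hmap : ∀ (w : MvPolynomial (Fin r) ℂ) (z : S →ₐ[ℂ] ℂ),
      MvPolynomial.map (z : S →+* ℂ) (MvPolynomial.map (algebraMap ℂ S) w) = w := by
    intro w z
    rw [MvPolynomial.map_map]
    have : (z : S →+* ℂ).comp (algebraMap ℂ S) = RingHom.id ℂ := by
      ext c
      simp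
    rw [this, MvPolynomial.map_id]
  have hPQ : ∀ j, ∃ P Q : MvPolynomial (Fin r) S, ∀ z : S →ₐ[ℂ] ℂ, E z ≠ 0 →
      aeval f (MvPolynomial.map (z : S →+* ℂ) Q) ≠ 0 ∧
      aeval f (MvPolynomial.map (z : S →+* ℂ) P) =
        g' j z * aeval f (MvPolynomial.map (z : S →+* ℂ) Q) := by
    intro j
    obtain ⟨P1, q1, h1, h2⟩ := GENREG_coeff hf (hN' j)
    obtain ⟨P2, q2, h3, h4⟩ := GENREG_coeff hf (hD' j)
    refine ⟨P1 * MvPolynomial.map (algebraMap ℂ S) q2,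
      P2 * MvPolynomial.map (algebraMap ℂ S) q1, ?_⟩
    intro z hz
    obtain ⟨h5, h6⟩ := hND j z hz
    rw [map_mul, map_mul, map_mul, map_mul, hmap, hmap, ← h2, ← h4, ← h6]
    exact ⟨mul_ne_zero (mul_ne_zero h3 h5) h1, by ring⟩
  choose P Q hPQ using hPQ
  have hW : ∀ j, GENREG_RF E (fun z => aeval (fun j => g j z)
      (MvPolynomial.map (z : S →+* ℂ) (Q j))) := fun j => GENREG_rf_poly hE hg (Q j)
  have hV : ∀ j, ∀ z : S →ₐ[ℂ] ℂ, E z ≠ 0 →
      aeval (fun j => g j z) (MvPolynomial.map (z : S →+* ℂ) (P j)) =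
        f j * aeval (fun j => g j z) (MvPolynomial.map (z : S →+* ℂ) (Q j)) := by
    intro j z hz
    have h1 : GENREG_RF E (fun z => aeval (fun j => g j z)
        (MvPolynomial.map (z : S →+* ℂ) (P j)) +
        -(f j * aeval (fun j => g j z) (MvPolynomial.map (z : S →+* ℂ) (Q j)))) :=
      GENREG_rf_add hE (GENREG_rf_poly hE hg (P j))
        (GENREG_rf_neg (GENREG_rf_mul (GENREG_rf_of_fam (GENREG_fam_const (f j))) (hW j)))
    have h2 := GENREG_rf_dens h1 hΓ hEΓ (by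
      intro γ hγ
      obtain ⟨a, h3, h4⟩ := ha γ hγ
      have h5 := GENREG_img (a : K →ₐ[ℂ] K) h3
      show aeval (fun j => g j γ) (MvPolynomial.map (γ : S →+* ℂ) (P j)) +
        -(f j * aeval (fun j => g j γ) (MvPolynomial.map (γ : S →+* ℂ) (Q j))) = 0
      rw [← h5, ← h5, (hPQ j γ (hEΓ γ hγ)).2, map_mul]
      rw [show (a : K →ₐ[ℂ] K) (g' j γ) = f j from h4 j]
      ring) z hz
    rw [← sub_eq_add_neg, sub_eq_zero] at h2
    exact h2
  have hWne : ∀ j, ∃ h : S, h ≠ 0 ∧ ∀ z : S →ₐ[ℂ] ℂ, z h ≠ 0 → E z ≠ 0 →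
      aeval (fun j => g j z) (MvPolynomial.map (z : S →+* ℂ) (Q j)) ≠ 0 := by
    intro j
    refine GENREG_rf_open (hW j) γ₀ (hEΓ γ₀ hγ₀) ?_
    obtain ⟨a, h3, h4⟩ := ha γ₀ hγ₀
    show aeval (fun j => g j γ₀) (MvPolynomial.map (γ₀ : S →+* ℂ) (Q j)) ≠ 0
    rw [← GENREG_img (a : K →ₐ[ℂ] K) h3]
    have h5 := (hPQ j γ₀ (hEΓ γ₀ hγ₀)).1
    simpa using h5
  choose h hh hWne using hWne
  refine ⟨∏ j, h j, Finset.prod_ne_zero_iff.mpr fun j _ => hh j, ?_⟩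
  intro z hz hEz
  have hzj : ∀ j, z (h j) ≠ 0 := by
    rw [map_prod, Finset.prod_ne_zero_iff] at hz
    exact fun j => hz j (Finset.mem_univ j)
  have hWz : ∀ j, aeval (fun j => g j z) (MvPolynomial.map (z : S →+* ℂ) (Q j)) ≠ 0 :=
    fun j => hWne j z (hzj j) hEz
  have hdiv : ∀ j, aeval f (MvPolynomial.map (z : S →+* ℂ) (P j)) /
      aeval f (MvPolynomial.map (z : S →+* ℂ) (Q j)) = g' j z := fun j => by
    rw [(hPQ j z hEz).2, mul_div_assoc, div_self (hPQ j z hEz).1, mul_one]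
  have hdiv' : ∀ j, aeval (fun j => g j z) (MvPolynomial.map (z : S →+* ℂ) (P j)) /
      aeval (fun j => g j z) (MvPolynomial.map (z : S →+* ℂ) (Q j)) = f j := fun j => by
    rw [hV j z hEz, mul_div_assoc, div_self (hWz j), mul_one]
  refine ⟨?_, ?_⟩
  · intro p hp
    obtain ⟨n, H, hH⟩ := GENREG_homog (K := K)
      (fun j => MvPolynomial.map (z : S →+* ℂ) (P j))
      (fun j => MvPolynomial.map (z : S →+* ℂ) (Q j)) p
    have h1 := hH f fun j => (hPQ j z hEz).1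
    simp only [hdiv] at h1
    rw [hp, mul_zero] at h1
    have h2 := hH (fun j => g j z) hWz
    rw [hrel z hEz H h1] at h2
    simp only [hdiv'] at h2
    exact (mul_eq_zero.mp h2.symm).resolve_left
      (pow_ne_zero n (Finset.prod_ne_zero_iff.mpr fun j _ => hWz j))
  · intro β hβ j
    rw [← hdiv j, map_div₀, GENREG_img β hβ, GENREG_img β hβ]
    exact hdiv' j

/-- uniform finite generation of the charts -/
theorem GENREG_gens {n : ℕ} {R : Fin n → Subalgebra ℂ K} (hR : ∀ i, (R i).FG) :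
    ∃ (m : ℕ) (u : Fin n → Fin m → K), (∀ i k, u i k ∈ R i) ∧
      ∀ i, ∀ (O : Subalgebra ℂ K) (β : K →ₐ[ℂ] K), (∀ k, β (u i k) ∈ O) →
        ∀ x ∈ R i, β x ∈ O := by
  classical
  choose t ht using hR
  refine ⟨∑ i, (t i).card, fun i k => (t i).toList.getD k 0, ?_, ?_⟩
  · intro i k
    show (t i).toList.getD (k : ℕ) 0 ∈ R i
    by_cases hk : (k : ℕ) < (t i).toList.length
    · rw [List.getD_eq_getElem _ _ hk]
      have h1 : (t i).toList[(k : ℕ)] ∈ t i := by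
        rw [← Finset.mem_toList]
        exact List.getElem_mem hk
      rw [← ht i]
      exact Algebra.subset_adjoin h1
    · rw [List.getD_eq_default _ _ (not_lt.mp hk)]
      exact (R i).zero_mem
  · intro i O β h x hx
    have h1 : R i ≤ O.comap β := by
      rw [← ht i]
      refine Algebra.adjoin_le ?_
      intro y hy
      have hy' : y ∈ (t i).toList := by rwa [Finset.mem_toList]
      obtain ⟨k, hk, rfl⟩ := List.getElem_of_mem hy'
      have h2 : (t i).card ≤ ∑ i, (t i).card :=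
        Finset.single_le_sum (f := fun i => (t i).card) (fun _ _ => Nat.zero_le _)
          (Finset.mem_univ i)
      have h3 := h ⟨k, lt_of_lt_of_le (by simpa using hk) h2⟩
      simp only [List.getD_eq_getElem _ _ hk] at h3
      exact h3
    exact h1 hx

theorem GENREG_chart (hREG : ST_REGOPEN) [IsDomain S] [Algebra.FiniteType ℂ S]
    {X : Set (Subalgebra ℂ K)} {n : ℕ} {R : Fin n → Subalgebra ℂ K}
    (hR : ∀ i, IsChart (R i))
    (hX : ∀ O, O ∈ X ↔ ∃ i, ∃ φ : R i →ₐ[ℂ] ℂ, O = locAt (R i) φ)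
    (hE : Fam E) {Γ : Set (S →ₐ[ℂ] ℂ)} (hΓ : DensePts Γ)
    (hEΓ : ∀ γ ∈ Γ, E γ ≠ 0) {r : ℕ} {f : Fin r → K} (hf : FGen (Set.range f))
    {g : Fin r → (S →ₐ[ℂ] ℂ) → K} (hg : ∀ j, GENREG_RF E (g j))
    (ha : ∀ γ ∈ Γ, ∃ a : K ≃ₐ[ℂ] K, Pres X a ∧ ∀ j, a (f j) = g j γ) :
    ∃ h : S, h ≠ 0 ∧ ∀ z : S →ₐ[ℂ] ℂ, z h ≠ 0 → E z ≠ 0 →
      ∀ β : K →ₐ[ℂ] K, (∀ j, β (f j) = g j z) → ∀ O ∈ X, ∃ i, ∀ x ∈ R i, β x ∈ O := by
  classical
  obtain ⟨m, u, hu, hgen⟩ := GENREG_gens fun i => (hR i).fg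
  choose p q hq hpq using fun i k => GENREG_frac hf (u i k)
  choose n1 M1 hM1 h1 using fun i k => GENREG_rf_polyC hE hg (q i k)
  choose n2 M2 hM2 h2 using fun i k => GENREG_rf_polyC hE hg (p i k)
  have hval : ∀ (z : S →ₐ[ℂ] ℂ), E z ≠ 0 → ∀ β : K →ₐ[ℂ] K, (∀ j, β (f j) = g j z) →
      ∀ i k, M1 i k z * E z ^ n2 i k ≠ 0 ∧
        M2 i k z * E z ^ n1 i k / (M1 i k z * E z ^ n2 i k) = β (u i k) := by
    intro z hz β hβ i k
    have h3 : aeval (fun j => g j z) (q i k) ≠ 0 := by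
      rw [← GENREG_img β hβ]
      simpa using hq i k
    have h4 : M1 i k z ≠ 0 := by
      rw [← h1 i k z hz]
      exact mul_ne_zero (pow_ne_zero _ hz) h3
    refine ⟨mul_ne_zero h4 (pow_ne_zero _ hz), ?_⟩
    rw [hpq i k, map_div₀, GENREG_img β hβ, GENREG_img β hβ, ← h1 i k z hz, ← h2 i k z hz]
    have := pow_ne_zero (n1 i k) hz
    have := pow_ne_zero (n2 i k) hz
    field_simp
  obtain ⟨h, hh, hmain⟩ := hREG K n m R hR S Γ hΓ (fun i k z => M2 i k z * E z ^ n1 i k)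
    (fun i k z => M1 i k z * E z ^ n2 i k)
    (fun i k => GENREG_fam_mul (hM2 i k) (GENREG_fam_pow hE _))
    (fun i k => GENREG_fam_mul (hM1 i k) (GENREG_fam_pow hE _)) (by
      intro γ hγ j φ
      obtain ⟨a, ha1, ha2⟩ := ha γ hγ
      obtain ⟨O', hO', h3⟩ := ha1.2 (locAt (R j) φ) ((hX _).mpr ⟨j, φ, rfl⟩)
      obtain ⟨i, ψ, rfl⟩ := (hX O').mp hO'
      refine ⟨i, fun k => ?_⟩
      obtain ⟨h4, h5⟩ := hval γ (hEΓ γ hγ) (a : K →ₐ[ℂ] K) ha2 i k
      refine ⟨h4, ?_⟩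
      show M2 i k γ * E γ ^ n1 i k / (M1 i k γ * E γ ^ n2 i k) ∈ locAt (R j) φ
      rw [h5]
      exact (h3 (u i k)).mp ⟨⟨u i k, hu i k⟩, 1, by simp, by simp⟩)
  refine ⟨h, hh, ?_⟩
  intro z hz hEz β hβ O hO
  obtain ⟨j, φ, rfl⟩ := (hX O).mp hO
  obtain ⟨i, hi⟩ := hmain z hz j φ
  refine ⟨i, hgen i _ β fun k => ?_⟩
  rw [← (hval z hEz β hβ i k).2]
  exact (hi k).2

end GENREG_main

/-- generic members of a family of automorphisms -/
theorem st_GENREG (hREG : ST_REGOPEN) : ST_GENREG := by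
  classical
  intro K _ _ X hX S _ _ _ _ Γ hΓ r f hf N D N' D' hN hD hN' hD' C hmain
  obtain ⟨⟨n, R, _, hR, hX1⟩, hsep⟩ := hX
  let E : (S →ₐ[ℂ] ℂ) → K := fun z => (∏ j, D j z) * ∏ j, D' j z
  have hE : Fam E := GENREG_fam_mul (GENREG_fam_prod _ hD) (GENREG_fam_prod _ hD')
  have hEne : ∀ z, E z ≠ 0 ↔ (∀ j, D j z ≠ 0) ∧ ∀ j, D' j z ≠ 0 := by
    intro z
    show (∏ j, D j z) * ∏ j, D' j z ≠ 0 ↔ _
    rw [mul_ne_zero_iff, Finset.prod_ne_zero_iff, Finset.prod_ne_zero_iff]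
    simp
  have hEΓ : ∀ γ ∈ Γ, E γ ≠ 0 := by
    intro γ hγ
    obtain ⟨a, _, _, h⟩ := hmain γ hγ
    exact (hEne γ).mpr ⟨fun j => (h j).1, fun j => (h j).2.2.1⟩
  let g : Fin r → (S →ₐ[ℂ] ℂ) → K := fun j z => N j z / D j z
  let g' : Fin r → (S →ₐ[ℂ] ℂ) → K := fun j z => N' j z / D' j z
  have hg : ∀ j, GENREG_RF E (g j) := by
    intro j
    refine ⟨1, fun z => N j z * ((∏ i ∈ Finset.univ.erase j, D i z) * ∏ j, D' j z),
      GENREG_fam_mul (hN j) (GENREG_fam_mul (GENREG_fam_prod _ hD) (GENREG_fam_prod _ hD')), ?_⟩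
    intro z hz
    have h1 := ((hEne z).mp hz).1 j
    show ((∏ j, D j z) * ∏ j, D' j z) ^ 1 * (N j z / D j z) = _
    rw [← Finset.mul_prod_erase Finset.univ (fun i => D i z) (Finset.mem_univ j)]
    field_simp
  have hg' : ∀ j, GENREG_RF E (g' j) := by
    intro j
    refine ⟨1, fun z => N' j z * ((∏ j, D j z) * ∏ i ∈ Finset.univ.erase j, D' i z),
      GENREG_fam_mul (hN' j) (GENREG_fam_mul (GENREG_fam_prod _ hD) (GENREG_fam_prod _ hD')), ?_⟩
    intro z hz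
    have h1 := ((hEne z).mp hz).2 j
    show ((∏ j, D j z) * ∏ j, D' j z) ^ 1 * (N' j z / D' j z) = _
    rw [← Finset.mul_prod_erase Finset.univ (fun i => D' i z) (Finset.mem_univ j)]
    field_simp
  have hgz : ∀ j z, E z ≠ 0 → D j z ≠ 0 ∧ D j z * g j z = N j z := by
    intro j z hz
    have h1 := ((hEne z).mp hz).1 j
    exact ⟨h1, mul_div_cancel₀ _ h1⟩
  have hgz' : ∀ j z, E z ≠ 0 → D' j z ≠ 0 ∧ D' j z * g' j z = N' j z := by
    intro j z hz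
    have h1 := ((hEne z).mp hz).2 j
    exact ⟨h1, mul_div_cancel₀ _ h1⟩
  have hΓa : ∀ γ ∈ Γ, ∃ a : K ≃ₐ[ℂ] K, Pres X a ∧ (∀ b ∈ C, a * b = b * a) ∧
      (∀ j, a (f j) = g j γ) ∧ ∀ j, a.symm (f j) = g' j γ := by
    intro γ hγ
    obtain ⟨a, h1, h2, h3⟩ := hmain γ hγ
    refine ⟨a, h1, h2, fun j => ?_, fun j => ?_⟩
    · rw [eq_div_iff (h3 j).1, mul_comm]
      exact (h3 j).2.1
    · rw [eq_div_iff (h3 j).2.2.1, mul_comm]
      exact (h3 j).2.2.2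
  have hPsymm : ∀ a : K ≃ₐ[ℂ] K, Pres X a → Pres X a.symm := by
    intro a ha
    refine ⟨fun O hO => ?_, fun O hO => ?_⟩
    · obtain ⟨O', hO', h⟩ := ha.2 O hO
      exact ⟨O', hO', fun f => by rw [h]; simp⟩
    · obtain ⟨O', hO', h⟩ := ha.1 O hO
      exact ⟨O', hO', fun f => by rw [h (a.symm f)]; simp⟩
  have hne : ∃ γ₀, γ₀ ∈ Γ := by
    by_contra h
    push Not at h
    exact one_ne_zero (hΓ (1 : S) fun γ hγ => absurd hγ (h γ))
  obtain ⟨γ₀, hγ₀⟩ := hne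
  -- generic conditions
  obtain ⟨h0, hh0, H0⟩ := GENREG_open hE γ₀ (hEΓ γ₀ hγ₀)
  obtain ⟨h1, hh1, H1⟩ := GENREG_back hE hΓ hEΓ hf hg hN' hD' hgz' (fun γ hγ => by
    obtain ⟨a, _, _, h3, h4⟩ := hΓa γ hγ
    exact ⟨a, h3, fun j => by rw [← h4 j]; simp⟩)
  obtain ⟨h2, hh2, H2⟩ := GENREG_back hE hΓ hEΓ hf hg' hN hD hgz (fun γ hγ => by
    obtain ⟨a, _, _, h3, h4⟩ := hΓa γ hγ
    exact ⟨a.symm, h4, fun j => by rw [← h3 j]; simp⟩)
  obtain ⟨h3, hh3, H3⟩ := GENREG_chart hREG hR hX1 hE hΓ hEΓ hf hg (fun γ hγ => by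
    obtain ⟨a, h5, _, h3, h4⟩ := hΓa γ hγ
    exact ⟨a, h5, h3⟩)
  obtain ⟨h4, hh4, H4⟩ := GENREG_chart hREG hR hX1 hE hΓ hEΓ hf hg' (fun γ hγ => by
    obtain ⟨a, h5, _, h3, h4⟩ := hΓa γ hγ
    exact ⟨a.symm, hPsymm a h5, h4⟩)
  have hrel := GENREG_rel hE hΓ hEΓ hg (fun γ hγ => by
    obtain ⟨a, _, _, h, _⟩ := hΓa γ hγ
    exact ⟨a, h⟩)
  have hrel' := GENREG_rel hE hΓ hEΓ hg' (fun γ hγ => by
    obtain ⟨a, _, _, _, h⟩ := hΓa γ hγ
    exact ⟨a.symm, h⟩)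
  refine ⟨h0 * h1 * h2 * h3 * h4, by
    simp only [ne_eq, mul_eq_zero, not_or]
    exact ⟨⟨⟨⟨hh0, hh1⟩, hh2⟩, hh3⟩, hh4⟩, ?_⟩
  intro z hz
  rw [map_mul, map_mul, map_mul, map_mul, mul_ne_zero_iff, mul_ne_zero_iff, mul_ne_zero_iff,
    mul_ne_zero_iff] at hz
  obtain ⟨⟨⟨⟨hz0, hz1⟩, hz2⟩, hz3⟩, hz4⟩ := hz
  have hEz : E z ≠ 0 := H0 z hz0
  obtain ⟨H1a, H1b⟩ := H1 z hz1 hEz
  obtain ⟨H2a, H2b⟩ := H2 z hz2 hEz
  obtain ⟨β, hβ⟩ := GENREG_hom (g := fun j => g j z) hf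
    (fun p => ⟨hrel z hEz p, H2a p⟩)
  obtain ⟨β', hβ'⟩ := GENREG_hom (g := fun j => g' j z) hf
    (fun p => ⟨hrel' z hEz p, H1a p⟩)
  have hββ' : ∀ x, β (β' x) = x := by
    intro x
    refine GENREG_ext hf (β.comp β') (AlgHom.id ℂ K) (fun j => ?_) x
    show β (β' (f j)) = f j
    rw [hβ' j]
    exact H1b β hβ j
  have hβ'β : ∀ x, β' (β x) = x := by
    intro x
    refine GENREG_ext hf (β'.comp β) (AlgHom.id ℂ K) (fun j => ?_) x
    show β' (β (f j)) = f j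
    rw [hβ j]
    exact H2b β' hβ' j
  let a : K ≃ₐ[ℂ] K := AlgEquiv.ofAlgHom β β' (AlgHom.ext hββ') (AlgHom.ext hβ'β)
  have ha : ∀ x, a x = β x := fun x => rfl
  have ha' : ∀ x, a.symm x = β' x := fun x => rfl
  refine ⟨a, GENREG_pres hsep hX1 a (H3 z hz3 hEz β hβ) (H4 z hz4 hEz β' hβ'), ?_, ?_⟩
  · intro b hb
    have key : ∀ j, a (b (f j)) = b (a (f j)) := by
      intro j
      obtain ⟨p, q, hq, hpq⟩ := GENREG_frac hf (b (f j))
      have hVrf : GENREG_RF E (fun z => aeval (fun j => g j z) q * b (N j z) +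
          -(aeval (fun j => g j z) p * b (D j z))) :=
        GENREG_rf_add hE (GENREG_rf_mul (GENREG_rf_polyC hE hg q)
          (GENREG_rf_of_fam (GENREG_fam_map (hN j) b)))
          (GENREG_rf_neg (GENREG_rf_mul (GENREG_rf_polyC hE hg p)
          (GENREG_rf_of_fam (GENREG_fam_map (hD j) b))))
      have hV := GENREG_rf_dens hVrf hΓ hEΓ (by
        intro γ hγ
        obtain ⟨c, _, hc1, hc2, _⟩ := hΓa γ hγ
        have hc3 : c (b (f j)) = b (c (f j)) := by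
          have := congrArg (fun e : K ≃ₐ[ℂ] K => e (f j)) (hc1 b hb)
          exact this
        show aeval (fun j => g j γ) q * b (N j γ) + -(aeval (fun j => g j γ) p * b (D j γ)) = 0
        rw [← GENREG_img (c : K →ₐ[ℂ] K) hc2, ← GENREG_img (c : K →ₐ[ℂ] K) hc2]
        have hq' : c (aeval f q) ≠ 0 := by simpa using hq
        rw [hpq, hc2 j, map_div₀, div_eq_iff hq'] at hc3
        show c (aeval f q) * b (N j γ) + -(c (aeval f p) * b (D j γ)) = 0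
        rw [hc3, ← (hgz j γ (hEΓ γ hγ)).2, map_mul]
        ring) z hEz
      rw [← sub_eq_add_neg, sub_eq_zero] at hV
      rw [hpq, map_div₀]
      have h5 : ∀ p : MvPolynomial (Fin r) ℂ, a (aeval f p) = aeval (fun j => g j z) p :=
        fun p => GENREG_img (a : K →ₐ[ℂ] K) hβ p
      have hq' : a (aeval f q) ≠ 0 := by simpa using hq
      rw [div_eq_iff hq', h5, h5]
      have h6 : a (f j) = g j z := hβ j
      rw [h6]
      have h7 : b (D j z) ≠ 0 := by simpa using (hgz j z hEz).1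
      have h8 := (hgz j z hEz).2
      rw [← h8, map_mul] at hV
      apply mul_right_cancel₀ h7
      rw [← hV]
      ring
    refine AlgEquiv.ext fun x => ?_
    exact GENREG_ext hf ((a : K →ₐ[ℂ] K).comp (b : K →ₐ[ℂ] K))
      ((b : K →ₐ[ℂ] K).comp (a : K →ₐ[ℂ] K)) key x
  · intro j
    have h5 := hgz j z hEz
    have h6 := hgz' j z hEz
    refine ⟨h5.1, ?_, h6.1, ?_⟩
    · rw [ha, hβ j]
      exact h5.2
    · rw [ha', hβ' j]
      exact h6.2

end Pool.Agent.Helper43.FV
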